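import Mathlib

/-!
# Counting: edges of the links, monochromatic triples, the closed form
-/

set_option autoImplicit false

open Finset

namespace Pool.Agent.N442.CL

theorem sym2_toFinset_inj {V : Type} [DecidableEq V] {z z' : Sym2 V}
    (h : z.toFinset = z'.toFinset) : z = z' := by
  apply Sym2.ext
  intro x
  rw [← Sym2.mem_toFinset, ← Sym2.mem_toFinset, h]

/-- every triple is counted in the links of its three vertices -/
theorem sum_link {n : ℕ} (G : Finset (Finset (Fin n))) (h3 : ∀ e ∈ G, e.card = 3)
    (L : Fin n → SimpleGraph (Fin n)) [∀ v, DecidableRel (L v).Adj]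
    (hL : ∀ v a b, (L v).Adj a b ↔ a ≠ b ∧ a ≠ v ∧ b ≠ v ∧ ({v, a, b} : Finset (Fin n)) ∈ G) :
    ∑ v, (L v).edgeFinset.card = 3 * G.card := by
  have h1 : ∀ v, (L v).edgeFinset.card = (G.filter (fun e => v ∈ e)).card := by
    intro v
    apply Finset.card_bij (fun z _ => insert v z.toFinset)
    · intro z hz
      induction z with
      | _ a b =>
        rw [SimpleGraph.mem_edgeFinset, SimpleGraph.mem_edgeSet, hL] at hz
        rw [mem_filter, Sym2.toFinset_mk_eq]
        exact ⟨hz.2.2.2, mem_insert_self _ _⟩
    · intro z hz z' hz' h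
      have hv : ∀ z : Sym2 (Fin n), z ∈ (L v).edgeFinset → v ∉ z.toFinset := by
        intro z hz
        induction z with
        | _ a b =>
          rw [SimpleGraph.mem_edgeFinset, SimpleGraph.mem_edgeSet, hL] at hz
          rw [Sym2.toFinset_mk_eq, mem_insert, mem_singleton]
          rintro (h | h)
          · exact hz.2.1 h.symm
          · exact hz.2.2.1 h.symm
      apply sym2_toFinset_inj
      have h2 : (insert v z.toFinset).erase v = (insert v z'.toFinset).erase v := by rw [h]
      rwa [erase_insert (hv z hz), erase_insert (hv z' hz')] at h2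
    · intro e he
      rw [mem_filter] at he
      have hc : (e.erase v).card = 2 := by
        rw [card_erase_of_mem he.2, h3 e he.1]
      obtain ⟨a, b, hab, he2⟩ := card_eq_two.mp hc
      have ha : a ∈ e.erase v := by rw [he2]; simp
      have hb : b ∈ e.erase v := by rw [he2]; simp
      have hins : insert v ({a, b} : Finset (Fin n)) = e := by
        rw [← he2, insert_erase he.2]
      refine ⟨s(a, b), ?_, ?_⟩
      · rw [SimpleGraph.mem_edgeFinset, SimpleGraph.mem_edgeSet, hL]
        exact ⟨hab, (mem_erase.mp ha).1, (mem_erase.mp hb).1, by rw [hins]; exact he.1⟩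
      · rw [Sym2.toFinset_mk_eq]
        exact hins
  rw [sum_congr rfl fun v _ => h1 v]
  simp only [Finset.card_filter]
  rw [sum_comm]
  simp only [← Finset.card_filter]
  have h2 : ∀ e ∈ G, (univ.filter (fun v => v ∈ e)).card = 3 := by
    intro e he
    rw [← h3 e he]
    congr 1
    ext v
    simp
  rw [sum_congr rfl h2, sum_const, smul_eq_mul, mul_comm]

theorem choose_id (q : ℕ) : q * q.choose 2 = 2 * (q + 1).choose 3 + q.choose 3 := by
  have h1 : (q + 1).choose 3 = q.choose 2 + q.choose 3 := Nat.choose_succ_succ q 2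
  have h2 : q.choose 3 * 3 = q.choose 2 * (q - 2) := Nat.choose_succ_right_eq q 2
  rcases Nat.lt_or_ge q 2 with h | h
  · interval_cases q <;> decide
  · obtain ⟨t, rfl⟩ : ∃ t, q = t + 2 := ⟨q - 2, by omega⟩
    rw [Nat.add_sub_cancel] at h2
    nlinarith

/-- the count of the extremal numbers -/
theorem turan_id (l n : ℕ) :
    n * (n / l).choose 2 = 2 * l * (n / l + 1).choose 3
      + (l * (n / l).choose 3 + (n % l) * (n / l).choose 2) := by
  set q := n / l with hq
  have h := choose_id q
  have h2 : l * q + n % l = n := Nat.div_add_mod n l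
  calc n * q.choose 2 = (l * q + n % l) * q.choose 2 := by rw [h2]
    _ = l * (q * q.choose 2) + (n % l) * q.choose 2 := by ring
    _ = _ := by rw [h]; ring

/-- the number of elements of a residue class -/
theorem class_card {l n : ℕ} (hl : 0 < l) {c : ℕ} (hc : c < l) :
    ((univ : Finset (Fin n)).filter (fun i => i.val % l = c)).card
      = n / l + if c < n % l then 1 else 0 := by
  have h1 : ((univ : Finset (Fin n)).filter (fun i => i.val % l = c)).card
      = ((range n).filter (fun i => i % l = c)).card := by
    rw [← card_map Fin.valEmbedding]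
    congr 1
    ext x
    simp only [mem_map, mem_filter, mem_univ, true_and, Fin.valEmbedding_apply, mem_range]
    constructor
    · rintro ⟨a, ha, rfl⟩
      exact ⟨a.isLt, ha⟩
    · rintro ⟨hx, hx2⟩
      exact ⟨⟨x, hx⟩, hx2, rfl⟩
  rw [h1]
  have h2 := Nat.count_modEq_card n hl c
  rw [Nat.count_eq_card_filter_range] at h2
  have h3 : (range n).filter (fun i => i % l = c) = (range n).filter (fun x => x ≡ c [MOD l]) := by
    apply filter_congr
    intro x _
    unfold Nat.ModEq
    rw [Nat.mod_eq_of_lt hc]
  rw [h3, h2, Nat.mod_eq_of_lt hc]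

/-- the number of monochromatic triples of the colouring by residues modulo `l` -/
theorem mono_card {l n : ℕ} (hl : 0 < l) :
    (((univ : Finset (Fin n)).powersetCard 3).filter
      (fun e => ∃ c < l, ∀ i ∈ e, i.val % l = c)).card
      = l * (n / l).choose 3 + (n % l) * (n / l).choose 2 := by
  have h1 : ((univ : Finset (Fin n)).powersetCard 3).filter
      (fun e => ∃ c < l, ∀ i ∈ e, i.val % l = c)
      = (range l).biUnion
        (fun c => ((univ : Finset (Fin n)).filter (fun i => i.val % l = c)).powersetCard 3) := by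
    ext e
    rw [mem_filter, mem_powersetCard, mem_biUnion]
    constructor
    · rintro ⟨⟨-, he⟩, c, hc, h⟩
      refine ⟨c, mem_range.mpr hc, ?_⟩
      rw [mem_powersetCard]
      exact ⟨fun i hi => mem_filter.mpr ⟨mem_univ _, h i hi⟩, he⟩
    · rintro ⟨c, hc, h⟩
      rw [mem_powersetCard] at h
      exact ⟨⟨subset_univ _, h.2⟩, c, mem_range.mp hc, fun i hi => (mem_filter.mp (h.1 hi)).2⟩
  rw [h1, card_biUnion]
  · have h2 : ∀ c ∈ range l,
        (((univ : Finset (Fin n)).filter (fun i => i.val % l = c)).powersetCard 3).card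
        = (n / l).choose 3 + if c < n % l then (n / l).choose 2 else 0 := by
      intro c hc
      rw [card_powersetCard, class_card hl (mem_range.mp hc)]
      split_ifs with h
      · rw [Nat.choose_succ_succ, add_comm]
      · simp
    rw [sum_congr rfl h2, sum_add_distrib, sum_const, card_range, smul_eq_mul, ← sum_filter]
    have h3 : (range l).filter (fun c => c < n % l) = range (n % l) := by
      ext c
      rw [mem_filter, mem_range, mem_range]
      have := Nat.mod_lt n hl
      omega
    rw [h3, sum_const, card_range, smul_eq_mul]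
  · intro c _ c' _ hcc
    rw [Function.onFun, disjoint_left]
    intro e he he'
    rw [mem_powersetCard] at he he'
    obtain ⟨i, hi⟩ : e.Nonempty := card_pos.mp (by omega)
    exact hcc ((mem_filter.mp (he.1 hi)).2.symm.trans (mem_filter.mp (he'.1 hi)).2)

/-- the closed form below the polygon -/
theorem closed_form (n α x : ℝ) (hα : 0 < α) (h1 : 2 * n / α - 1 ≤ x) (h2 : x ≤ 2 * n / α)
    (h3 : 1 ≤ x) (h4 : 0 ≤ n) :
    n / 6 * (2 * n / α - 1) * (2 * n / α - 2)
      ≤ n * (x * (x - 1) / 2) - α * ((x - 1) * x * (x + 1) / 6) := by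
  obtain ⟨y, hy⟩ : ∃ y, y = 2 * n / α := ⟨_, rfl⟩
  have hn : n = α * y / 2 := by rw [hy]; field_simp
  rw [← hy] at h1 h2 ⊢
  have hy0 : 0 ≤ y := by rw [hy]; positivity
  have key : n * (x * (x - 1) / 2) - α * ((x - 1) * x * (x + 1) / 6)
      - n / 6 * (y - 1) * (y - 2) = α / 6 * ((x - y + 1) * (y - x) * (x - 1 + y / 2)) := by
    rw [hn]; ring
  have : 0 ≤ α / 6 * ((x - y + 1) * (y - x) * (x - 1 + y / 2)) := by
    apply mul_nonneg (by positivity)
    apply mul_nonneg (mul_nonneg (by linarith) (by linarith)) (by linarith)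
  linarith

end Pool.Agent.N442.CL
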